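import Pool.Agent.Q217.MTL.Tab

set_option autoImplicit false

/-!
# MTL-chains over discrete orders
-/

namespace Pool.Agent.Q217.MTL

open Pool.Agent.Q217.FL

/-- Linear orders with successor, predecessor and a predicate. -/
class Ix (I : Type) extends LinearOrder I where
  /-- successor -/
  S : I → I
  /-- predecessor -/
  pr : I → I
  /-- the predicate -/
  Q : I → Prop
  S_pr : ∀ i, S (pr i) = i
  pr_S : ∀ i, pr (S i) = i
  lt_iff : ∀ i j : I, i < j ↔ S i ≤ j

namespace Ix

variable {I : Type} [Ix I]

theorem lt_S (i : I) : i < S i := (lt_iff i (S i)).2 le_rfl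

theorem pr_lt (i : I) : pr i < i := by
  have h := lt_S (pr i)
  rwa [S_pr] at h

theorem lt_S_iff {i j : I} : i < S j ↔ i ≤ j := by
  constructor
  · intro h
    by_contra hc
    rw [not_le, lt_iff] at hc
    exact absurd h (not_lt.2 hc)
  · intro h
    exact h.trans_lt (lt_S j)

theorem pr_lt_iff {i j : I} : pr i < j ↔ i ≤ j := by
  rw [lt_iff, S_pr]

theorem le_pr_iff {i j : I} : i ≤ pr j ↔ i < j := by
  rw [← lt_S_iff, S_pr]

open Classical in
/-- The lower bound of the band. -/
noncomputable def b (i : I) : I := if Q i then pr (pr i) else pr i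

theorem b_lt (i : I) : b i < i := by
  unfold b
  split_ifs
  · exact (pr_lt _).trans (pr_lt _)
  · exact pr_lt _

theorem S_b (i : I) : S (b i) = i ↔ ¬ Q i := by
  unfold b
  split_ifs with h
  · rw [S_pr]
    exact ⟨fun h => absurd h (pr_lt i).ne, fun h' => absurd h h'⟩
  · rw [S_pr]
    exact ⟨fun _ => h, fun _ => rfl⟩

open Classical in
/-- The index of the product. -/
noncomputable def phi (i j : I) : I :=
  if i ≤ j then (if b j ≤ i then S j else j) else (if b i ≤ j then S i else i)

theorem phi_comm (i j : I) : phi i j = phi j i := by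
  unfold phi
  rcases lt_trichotomy i j with h | rfl | h
  · rw [if_pos h.le, if_neg (not_le.2 h)]
  · rfl
  · rw [if_neg (not_le.2 h), if_pos h.le]

theorem phi_of_le {i j : I} (h : j ≤ i) : phi i j = open Classical in (if b i ≤ j then S i else i) := by
  rw [phi_comm]
  unfold phi
  rw [if_pos h]

theorem le_phi (i j : I) : i ≤ phi i j := by
  rcases le_total j i with h | h
  · rw [phi_of_le h]
    split_ifs
    · exact (lt_S i).le
    · exact le_rfl
  · rw [phi_comm, phi_of_le h]
    split_ifs
    · exact h.trans (lt_S j).le
    · exact h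

/-- The main computation: the residual of two middle elements. -/
theorem key (i j k : I) (hk : i < k) :
    k ≤ phi i j ↔ (open Classical in
      (if k = S i then b i else if b (pr k) ≤ i then pr k else k)) ≤ j := by
  have hi := b_lt i
  by_cases h1 : k = S i
  · rw [if_pos h1, h1]
    rcases le_total j i with h | h
    · rw [phi_of_le h]
      split_ifs with h2
      · simp [h2]
      · constructor
        · intro h3
          exact absurd h3 (not_le.2 (lt_S i))
        · intro h3
          exact absurd h3 h2
    · rcases h.lt_or_eq with h | rfl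
      · refine iff_of_true ?_ (hi.le.trans h.le)
        rw [phi_comm]
        exact ((lt_iff i j).1 h).trans (le_phi j i)
      · refine iff_of_true ?_ hi.le
        rw [phi_of_le le_rfl, if_pos hi.le]
  · rw [if_neg h1]
    have hk2 : S i < k := lt_of_le_of_ne ((lt_iff i k).1 hk) (Ne.symm h1)
    have hk3 : S i ≤ pr k := le_pr_iff.2 hk2
    have hk4 : i < pr k := (lt_S i).trans_le hk3
    rcases le_or_gt j i with h | h
    · have h3 : phi i j ≤ S i := by
        rw [phi_of_le h]
        split_ifs
        · exact le_rfl
        · exact (lt_S i).le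
      refine iff_of_false (not_le.2 (h3.trans_lt hk2)) ?_
      split_ifs
      · exact not_le.2 (h.trans_lt hk4)
      · exact not_le.2 (h.trans_lt hk)
    · rw [phi_comm, phi_of_le h.le]
      by_cases h2 : b (pr k) ≤ i
      · rw [if_pos h2]
        constructor
        · intro h3
          split_ifs at h3 with h4
          · by_contra h5
            rw [not_le, lt_iff] at h5
            exact absurd (h3.trans h5) (not_le.2 (pr_lt k))
          · exact (pr_lt k).le.trans h3
        · intro h3
          rcases h3.lt_or_eq with h4 | h4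
          · have h5 : k ≤ j := pr_lt_iff.1 h4
            split_ifs
            · exact h5.trans (lt_S j).le
            · exact h5
          · rw [← h4, if_pos h2, S_pr]
      · rw [if_neg h2]
        constructor
        · intro h3
          split_ifs at h3 with h4
          · rcases h3.lt_or_eq with h5 | h5
            · exact lt_S_iff.1 h5
            · rw [h5, pr_S] at h2
              exact absurd h4 h2
          · exact h3
        · intro h3
          split_ifs
          · exact h3.trans (lt_S j).le
          · exact h3

end Ix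

/-- The elements of the chain. -/
inductive Ch (I : Type) : Type
  | zero : Ch I
  | z : I → Ch I
  | zs : Ch I
  | t : I → Ch I
  | c : Ch I
  | one : Ch I

namespace Ch

variable {I : Type}

/-- The level of an element. -/
def rank : Ch I → ℕ
  | zero => 0
  | z _ => 1
  | zs => 2
  | t _ => 3
  | c => 4
  | one => 5

variable [Ix I]

/-- The order. -/
def le : Ch I → Ch I → Prop
  | z i, z j => j ≤ i
  | t i, t j => j ≤ i
  | u, w => u.rank ≤ w.rank

/-- The product. -/
noncomputable def mul : Ch I → Ch I → Ch I
  | one, w => w
  | u, one => u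
  | t i, t j => z (Ix.phi i j)
  | t i, c => z i
  | c, t i => z i
  | c, c => zs
  | _, _ => zero

open Classical in
/-- The residual. -/
noncomputable def res : Ch I → Ch I → Ch I
  | one, w => w
  | zero, _ => one
  | z i, z j => if j ≤ i then one else c
  | z _, zero => c
  | z _, _ => one
  | zs, zero => c
  | zs, z _ => c
  | zs, _ => one
  | t _, zero => zs
  | t i, z k => if k ≤ i then c else
      t (if k = Ix.S i then Ix.b i else if Ix.b (Ix.pr k) ≤ i then Ix.pr k else k)
  | t _, zs => c
  | t i, t j => if j ≤ i then one else c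
  | t _, _ => one
  | c, zero => zs
  | c, z k => t k
  | c, zs => c
  | c, t _ => c
  | c, _ => one

theorem le_refl' (u : Ch I) : le u u := by
  cases u <;> simp [le]

theorem le_trans' {u v w : Ch I} (h1 : le u v) (h2 : le v w) : le u w := by
  cases u <;> cases v <;> cases w <;> simp_all [le, rank]
  · exact h2.trans h1
  · exact h2.trans h1

theorem le_antisymm' {u v : Ch I} (h1 : le u v) (h2 : le v u) : u = v := by
  cases u <;> cases v <;> simp_all [le, rank]
  · exact le_antisymm h2 h1
  · exact le_antisymm h2 h1

theorem le_total' (u v : Ch I) : le u v ∨ le v u := by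
  cases u <;> cases v <;> simp [le, rank]
  · exact le_total _ _
  · exact le_total _ _

theorem mul_comm' (u w : Ch I) : mul u w = mul w u := by
  cases u <;> cases w <;> simp [mul, Ix.phi_comm]

theorem mul_assoc' (u v w : Ch I) : mul (mul u v) w = mul u (mul v w) := by
  cases u <;> cases v <;> cases w <;> rfl

theorem one_mul' (u : Ch I) : mul one u = u := by
  cases u <;> rfl

theorem res_spec (u v w : Ch I) : le (mul u v) w ↔ le v (res u w) := by
  cases u with
  | zero => cases v <;> cases w <;> simp [mul, res, le, rank]
  | z i =>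
    cases w with
    | z j =>
      by_cases h : j ≤ i <;> cases v <;> simp [mul, res, le, rank, h]
    | _ => cases v <;> simp [mul, res, le, rank]
  | zs => cases v <;> cases w <;> simp [mul, res, le, rank]
  | c => cases v <;> cases w <;> simp [mul, res, le, rank]
  | one => cases v <;> cases w <;> simp [mul, res, le, rank]
  | t i =>
    cases w with
    | z k =>
      by_cases h : k ≤ i
      · cases v with
        | t j => simpa [mul, res, le, rank, h] using h.trans (Ix.le_phi i j)
        | _ => simp [mul, res, le, rank, h]
      · cases v with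
        | t j => simpa [mul, res, le, rank, h] using Ix.key i j k (not_le.1 h)
        | _ => simp [mul, res, le, rank, h]
    | t j =>
      by_cases h : j ≤ i <;> cases v <;> simp [mul, res, le, rank, h]
    | _ => cases v <;> simp [mul, res, le, rank]

theorem eq_of_le_iff {u v : Ch I} (h : ∀ w, le w u ↔ le w v) : u = v :=
  le_antisymm' ((h u).1 (le_refl' u)) ((h v).2 (le_refl' v))

open Classical in
/-- The infimum. -/
noncomputable def inf (u w : Ch I) : Ch I := if le u w then u else w

open Classical in
/-- The supremum. -/
noncomputable def sup (u w : Ch I) : Ch I := if le u w then w else u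

end Ch

noncomputable instance (I : Type) [Ix I] : Lattice (Ch I) where
  le := Ch.le
  le_refl := Ch.le_refl'
  le_trans _ _ _ h1 h2 := Ch.le_trans' h1 h2
  le_antisymm _ _ h1 h2 := Ch.le_antisymm' h1 h2
  sup := Ch.sup
  inf := Ch.inf
  le_sup_left u w := by
    change Ch.le u (Ch.sup u w)
    unfold Ch.sup
    split_ifs with h
    · exact h
    · exact Ch.le_refl' _
  le_sup_right u w := by
    change Ch.le w (Ch.sup u w)
    unfold Ch.sup
    split_ifs with h
    · exact Ch.le_refl' _
    · exact (Ch.le_total' u w).resolve_left h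
  sup_le u v w h1 h2 := by
    change Ch.le (Ch.sup u v) w
    unfold Ch.sup
    split_ifs
    · exact h2
    · exact h1
  inf_le_left u w := by
    change Ch.le (Ch.inf u w) u
    unfold Ch.inf
    split_ifs with h
    · exact Ch.le_refl' _
    · exact (Ch.le_total' u w).resolve_left h
  inf_le_right u w := by
    change Ch.le (Ch.inf u w) w
    unfold Ch.inf
    split_ifs with h
    · exact h
    · exact Ch.le_refl' _
  le_inf u v w h1 h2 := by
    change Ch.le u (Ch.inf v w)
    unfold Ch.inf
    split_ifs
    · exact h1
    · exact h2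

noncomputable instance (I : Type) [Ix I] : BoundedOrder (Ch I) where
  top := Ch.one
  le_top u := by
    change Ch.le u Ch.one
    cases u <;> simp [Ch.le, Ch.rank]
  bot := Ch.zero
  bot_le u := by
    change Ch.le Ch.zero u
    cases u <;> simp [Ch.le, Ch.rank]

/-- The monoid. -/
@[reducible]
noncomputable def chMon (I : Type) [Ix I] : CommMonoid (Ch I) where
  mul := Ch.mul
  mul_assoc := Ch.mul_assoc'
  one := Ch.one
  one_mul := Ch.one_mul'
  mul_one u := (Ch.mul_comm' u Ch.one).trans (Ch.one_mul' u)
  mul_comm := Ch.mul_comm'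

noncomputable instance (I : Type) [Ix I] : CommMonoid (Ch I) := chMon I

noncomputable instance (I : Type) [Ix I] : FLewAlgebra (Ch I) where
  res := Ch.res
  one_eq_top := rfl
  mul_le_iff u v w := Ch.res_spec u v w

namespace Ch

variable {I : Type} [Ix I]

theorem one_le_iff {u : Ch I} : le one u ↔ u = one := by
  cases u <;> simp [le, rank]

theorem res_eq_one {u w : Ch I} : res u w = one ↔ le u w := by
  have h := res_spec u one w
  rw [mul_comm', one_mul'] at h
  rw [h, one_le_iff]

theorem inf_eq_one {u w : Ch I} : inf u w = one ↔ u = one ∧ w = one := by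
  unfold inf
  split_ifs with h
  · constructor
    · rintro rfl
      exact ⟨rfl, one_le_iff.1 h⟩
    · exact fun h => h.1
  · constructor
    · rintro rfl
      exact absurd (by cases u <;> simp [le, rank]) h
    · exact fun h => h.2

theorem sup_eq_one {u w : Ch I} : sup u w = one ↔ u = one ∨ w = one := by
  unfold sup
  split_ifs with h
  · constructor
    · exact fun h => Or.inr h
    · rintro (rfl | rfl)
      · exact one_le_iff.1 h
      · rfl
  · constructor
    · exact fun h => Or.inl h
    · rintro (rfl | rfl)
      · rfl
      · exact absurd (by cases u <;> simp [le, rank]) h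

theorem cube {u : Ch I} (h : u ≠ one) : mul u (mul u u) = zero := by
  cases u <;> simp_all [mul]

end Ch

noncomputable instance chMTL (I : Type) [Ix I] : MTLAlgebra (Ch I) where
  prelin u w := by
    change Ch.sup (Ch.res u w) (Ch.res w u) = Ch.one
    rw [Ch.sup_eq_one, Ch.res_eq_one, Ch.res_eq_one]
    exact Ch.le_total' u w

/-- The value of a formula. -/
noncomputable def evalC {I : Type} [Ix I] (v : ℕ → Ch I) : Fml → Ch I
  | .var n => v n
  | .and φ ψ => Ch.inf (evalC v φ) (evalC v ψ)
  | .or φ ψ => Ch.sup (evalC v φ) (evalC v ψ)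
  | .mul φ ψ => Ch.mul (evalC v φ) (evalC v ψ)
  | .imp φ ψ => Ch.res (evalC v φ) (evalC v ψ)
  | .e => Ch.one
  | .f => Ch.zero

theorem evalC_eq {I : Type} [Ix I] (v : ℕ → Ch I) (φ : Fml) : eval v φ = evalC v φ := by
  induction φ with
  | var n => rfl
  | and φ ψ ih1 ih2 =>
    change Ch.inf (eval v φ) (eval v ψ) = _
    rw [ih1, ih2, evalC]
  | or φ ψ ih1 ih2 =>
    change Ch.sup (eval v φ) (eval v ψ) = _
    rw [ih1, ih2, evalC]
  | mul φ ψ ih1 ih2 =>
    change Ch.mul (eval v φ) (eval v ψ) = _
    rw [ih1, ih2, evalC]
  | imp φ ψ ih1 ih2 =>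
    change Ch.res (eval v φ) (eval v ψ) = _
    rw [ih1, ih2, evalC]
  | e => rfl
  | f => rfl

theorem evalC_subst {I : Type} [Ix I] (v : ℕ → Ch I) (s : ℕ → Fml) (φ : Fml) :
    evalC v (φ.subst s) = evalC (fun n => evalC v (s n)) φ := by
  have h := eval_subst v s φ
  have h1 : (fun n => eval v (s n)) = fun n => evalC v (s n) := by
    funext n
    exact evalC_eq v (s n)
  have h2 := (evalC_eq v (φ.subst s)).symm.trans h
  rw [h1] at h2
  exact h2.trans (evalC_eq _ φ)

theorem evalC_congr {I : Type} [Ix I] {v w : ℕ → Ch I} (φ : Fml)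
    (h : ∀ n ∈ φ.vars, v n = w n) : evalC v φ = evalC w φ := by
  have h := eval_congr (v := v) (w := w) φ h
  rwa [evalC_eq, evalC_eq] at h

theorem evalC_andL {I : Type} [Ix I] (v : ℕ → Ch I) (l : List Fml) :
    evalC v (andL l) = Ch.one ↔ ∀ φ ∈ l, evalC v φ = Ch.one := by
  induction l with
  | nil => simp [andL, evalC]
  | cons φ l ih => rw [andL, evalC, Ch.inf_eq_one, ih]; simp

theorem evalC_orL {I : Type} [Ix I] (v : ℕ → Ch I) (l : List Fml) :
    evalC v (orL l) = Ch.one ↔ ∃ φ ∈ l, evalC v φ = Ch.one := by
  induction l with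
  | nil => simp [orL, evalC]
  | cons φ l ih => rw [orL, evalC, Ch.sup_eq_one, ih]; simp

theorem evalC_imp3 {I : Type} [Ix I] (v : ℕ → Ch I) (φ ψ : Fml) :
    evalC v (imp3 φ ψ) = Ch.one ↔ (evalC v φ = Ch.one → evalC v ψ = Ch.one) := by
  rw [imp3, evalC, evalC, evalC, Ch.res_eq_one]
  by_cases h : evalC v φ = Ch.one
  · rw [h, Ch.one_mul', Ch.one_mul', Ch.one_le_iff]
    simp
  · rw [Ch.cube h]
    simp only [h, false_imp_iff, iff_true]
    generalize evalC v ψ = r
    cases r <;> simp [Ch.le, Ch.rank]

end Pool.Agent.Q217.MTL
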