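import Pool.Agent.Q217.MTL.ChainDip

set_option autoImplicit false

/-!
# Amalgamation of discrete orders
-/

namespace Pool.Agent.Q217.MTL

open Pool.Agent.Q217.FL

/-- Partial isomorphisms of index structures. -/
structure PIso (I J : Type) [Ix I] [Ix J] (ρ : I → J → Prop) : Prop where
  le : ∀ {i i' j j'}, ρ i i' → ρ j j' → (i ≤ j ↔ i' ≤ j')
  S : ∀ {i i'}, ρ i i' → ρ (Ix.S i) (Ix.S i')
  pr : ∀ {i i'}, ρ i i' → ρ (Ix.pr i) (Ix.pr i')
  Q : ∀ {i i'}, ρ i i' → (Ix.Q i ↔ Ix.Q i')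

section amalgam

variable {I J : Type} [Ix I] [Ix J] {ρ : I → J → Prop}

/-- The universe of the amalgam. -/
def Am (ρ : I → J → Prop) : Type := I ⊕ {y : J // ¬ ∃ x, ρ x y}

/-- The order of the amalgam. -/
def amLe (ρ : I → J → Prop) : Am ρ → Am ρ → Prop
  | Sum.inl x, Sum.inl x' => x ≤ x'
  | Sum.inr y, Sum.inr y' => y.1 ≤ y'.1
  | Sum.inl x, Sum.inr y => ∀ a a', ρ a a' → a ≤ x → a' ≤ y.1
  | Sum.inr y, Sum.inl x => ∃ a a', ρ a a' ∧ y.1 ≤ a' ∧ a ≤ x

/-- The successor of the amalgam. -/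
def amS (h : PIso I J ρ) : Am ρ → Am ρ
  | Sum.inl x => Sum.inl (Ix.S x)
  | Sum.inr y => Sum.inr ⟨Ix.S y.1, fun ⟨x, hx⟩ => y.2 ⟨Ix.pr x, by
      have := h.pr hx
      rwa [Ix.pr_S] at this⟩⟩

/-- The predecessor of the amalgam. -/
def amPr (h : PIso I J ρ) : Am ρ → Am ρ
  | Sum.inl x => Sum.inl (Ix.pr x)
  | Sum.inr y => Sum.inr ⟨Ix.pr y.1, fun ⟨x, hx⟩ => y.2 ⟨Ix.S x, by
      have := h.S hx
      rwa [Ix.S_pr] at this⟩⟩

/-- The predicate of the amalgam. -/
def amQ (ρ : I → J → Prop) : Am ρ → Prop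
  | Sum.inl x => Ix.Q x
  | Sum.inr y => Ix.Q y.1

omit [Ix I] [Ix J] in
theorem ne_of {y : J} (hy : ¬ ∃ x, ρ x y) {a : I} {a' : J} (h : ρ a a') : y ≠ a' := by
  rintro rfl
  exact hy ⟨a, h⟩

theorem amLe_total (u w : Am ρ) : amLe ρ u w ∨ amLe ρ w u := by
  rcases u with x | y <;> rcases w with x' | y'
  · exact le_total x x'
  · by_cases h : ∀ a a', ρ a a' → a ≤ x → a' ≤ y'.1
    · exact Or.inl h
    · push Not at h
      obtain ⟨a, a', h1, h2, h3⟩ := h
      exact Or.inr ⟨a, a', h1, h3.le, h2⟩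
  · by_cases h : ∀ a a', ρ a a' → a ≤ x' → a' ≤ y.1
    · exact Or.inr h
    · push Not at h
      obtain ⟨a, a', h1, h2, h3⟩ := h
      exact Or.inl ⟨a, a', h1, h3.le, h2⟩
  · exact le_total y.1 y'.1

theorem amLe_lr {x : I} {y : {y : J // ¬ ∃ x, ρ x y}}
    (h1 : ∀ a a', ρ a a' → a ≤ x → a' ≤ y.1) (h2 : ∃ a a', ρ a a' ∧ y.1 ≤ a' ∧ a ≤ x) : False := by
  obtain ⟨a, a', h3, h4, h5⟩ := h2
  exact ne_of y.2 h3 (le_antisymm h4 (h1 a a' h3 h5))

theorem amLe_antisymm (u w : Am ρ) (h1 : amLe ρ u w) (h2 : amLe ρ w u) : u = w := by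
  rcases u with x | y <;> rcases w with x' | y'
  · exact congrArg Sum.inl (le_antisymm h1 h2)
  · exact (amLe_lr h1 h2).elim
  · exact (amLe_lr h2 h1).elim
  · exact congrArg Sum.inr (Subtype.ext (le_antisymm h1 h2))

theorem amLe_trans (u v w : Am ρ) (h1 : amLe ρ u v) (h2 : amLe ρ v w) :
    amLe ρ u w := by
  rcases u with x | y <;> rcases v with x' | y' <;> rcases w with x'' | y''
  · exact le_trans h1 h2
  · intro a a' h3 h4
    exact h2 a a' h3 (le_trans h4 h1)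
  · -- inl x ≤ inr y' ≤ inl x''
    change x ≤ x''
    by_contra hc
    rw [not_le] at hc
    obtain ⟨a, a', h3, h4, h5⟩ := h2
    exact ne_of y'.2 h3 (le_antisymm h4 (h1 a a' h3 (h5.trans hc.le)))
  · intro a a' h3 h4
    exact le_trans (h1 a a' h3 h4) h2
  · obtain ⟨a, a', h3, h4, h5⟩ := h1
    exact ⟨a, a', h3, h4, h5.trans h2⟩
  · obtain ⟨a, a', h3, h4, h5⟩ := h1
    exact h4.trans (h2 a a' h3 h5)
  · obtain ⟨a, a', h3, h4, h5⟩ := h2
    exact ⟨a, a', h3, le_trans h1 h4, h5⟩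
  · exact le_trans h1 h2

theorem amLe_refl (u : Am ρ) : amLe ρ u u := by
  rcases u with x | y
  · exact le_refl x
  · exact le_refl y.1

open Classical in
/-- The linear order of the amalgam. -/
@[reducible]
noncomputable def amLO (_h : PIso I J ρ) : LinearOrder (Am ρ) where
  le := amLe ρ
  le_refl := amLe_refl
  le_trans := amLe_trans
  le_antisymm := amLe_antisymm
  le_total := amLe_total
  toDecidableLE := Classical.decRel _

/-- The index structure of the amalgam. -/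
@[reducible]
noncomputable def amIx (h : PIso I J ρ) : Ix (Am ρ) :=
  { amLO h with
    S := amS h
    pr := amPr h
    Q := amQ ρ
    S_pr := by
      rintro (x | y)
      · exact congrArg Sum.inl (Ix.S_pr x)
      · exact congrArg Sum.inr (Subtype.ext (Ix.S_pr y.1))
    pr_S := by
      rintro (x | y)
      · exact congrArg Sum.inl (Ix.pr_S x)
      · exact congrArg Sum.inr (Subtype.ext (Ix.pr_S y.1))
    lt_iff := by
      intro u w
      rw [@lt_iff_not_ge (Am ρ) (amLO h)]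
      rcases u with x | y <;> rcases w with x' | y'
      · change ¬ (x' ≤ x) ↔ Ix.S x ≤ x'
        rw [not_le, Ix.lt_iff]
      · change (¬ ∃ a a', ρ a a' ∧ y'.1 ≤ a' ∧ a ≤ x) ↔ ∀ a a', ρ a a' → a ≤ Ix.S x → a' ≤ y'.1
        constructor
        · intro h1 a a' h2 h3
          have h4 : ∀ a a', ρ a a' → a ≤ x → a' < y'.1 := by
            intro a a' h5 h6
            by_contra h7
            exact h1 ⟨a, a', h5, not_lt.1 h7, h6⟩
          rcases h3.lt_or_eq with h5 | h5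
          · exact (h4 a a' h2 (Ix.lt_S_iff.1 h5)).le
          · have h6 := h4 _ _ (h.pr h2) (by rw [h5, Ix.pr_S])
            exact Ix.pr_lt_iff.1 h6
        · rintro h1 ⟨a, a', h2, h3, h4⟩
          exact ne_of y'.2 h2 (le_antisymm h3 (h1 a a' h2 (h4.trans (Ix.lt_S x).le)))
      · change (¬ ∀ a a', ρ a a' → a ≤ x' → a' ≤ y.1) ↔
          ∃ a a', ρ a a' ∧ Ix.S y.1 ≤ a' ∧ a ≤ x'
        push Not
        constructor
        · rintro ⟨a, a', h1, h2, h3⟩
          exact ⟨a, a', h1, (Ix.lt_iff _ _).1 h3, h2⟩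
        · rintro ⟨a, a', h1, h2, h3⟩
          exact ⟨a, a', h1, h3, (Ix.lt_iff _ _).2 h2⟩
      · change ¬ (y'.1 ≤ y.1) ↔ Ix.S y.1 ≤ y'.1
        rw [not_le, Ix.lt_iff] }

/-- The first embedding. -/
noncomputable def emL (h : PIso I J ρ) : @IxEmb I (Am ρ) _ (amIx h) :=
  letI := amIx h
  { f := Sum.inl
    le := fun _ _ => Iff.rfl
    S := fun _ => rfl
    pr := fun _ => rfl
    Q := fun _ => Iff.rfl }

open Classical in
/-- The second map. -/
noncomputable def fR (ρ : I → J → Prop) (y : J) : Am ρ :=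
  if h : ∃ x, ρ x y then Sum.inl h.choose else Sum.inr ⟨y, h⟩

theorem fR_of (h : PIso I J ρ) {x : I} {y : J} (hxy : ρ x y) : fR ρ y = Sum.inl x := by
  have h1 : ∃ x, ρ x y := ⟨x, hxy⟩
  refine (dif_pos h1).trans ?_
  refine congrArg Sum.inl (le_antisymm ?_ ?_)
  · exact (h.le h1.choose_spec hxy).2 le_rfl
  · exact (h.le hxy h1.choose_spec).2 le_rfl

theorem fR_of_not {y : J} (hy : ¬ ∃ x, ρ x y) : fR ρ y = Sum.inr ⟨y, hy⟩ := by
  exact dif_neg hy

/-- The second embedding. -/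
noncomputable def emR (h : PIso I J ρ) : @IxEmb J (Am ρ) _ (amIx h) :=
  letI := amIx h
  { f := fR ρ
    le := fun y y' => by
      by_cases hy : ∃ x, ρ x y
      · obtain ⟨x, hx⟩ := hy
        rw [fR_of h hx]
        by_cases hy' : ∃ x, ρ x y'
        · obtain ⟨x', hx'⟩ := hy'
          rw [fR_of h hx']
          exact h.le hx hx'
        · rw [fR_of_not hy']
          change (∀ a a', ρ a a' → a ≤ x → a' ≤ y') ↔ y ≤ y'
          constructor
          · intro h1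
            exact h1 x y hx le_rfl
          · intro h1 a a' h2 h3
            exact ((h.le h2 hx).1 h3).trans h1
      · rw [fR_of_not hy]
        by_cases hy' : ∃ x, ρ x y'
        · obtain ⟨x', hx'⟩ := hy'
          rw [fR_of h hx']
          change (∃ a a', ρ a a' ∧ y ≤ a' ∧ a ≤ x') ↔ y ≤ y'
          constructor
          · rintro ⟨a, a', h1, h2, h3⟩
            exact h2.trans ((h.le h1 hx').1 h3)
          · intro h1
            exact ⟨x', y', hx', h1, le_rfl⟩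
        · rw [fR_of_not hy']
          exact Iff.rfl
    S := fun y => by
      by_cases hy : ∃ x, ρ x y
      · obtain ⟨x, hx⟩ := hy
        rw [fR_of h hx, fR_of h (h.S hx)]
        rfl
      · rw [fR_of_not hy, fR_of_not (y := Ix.S y) (fun ⟨x, hx⟩ => hy ⟨Ix.pr x, by
          have := h.pr hx
          rwa [Ix.pr_S] at this⟩)]
        rfl
    pr := fun y => by
      by_cases hy : ∃ x, ρ x y
      · obtain ⟨x, hx⟩ := hy
        rw [fR_of h hx, fR_of h (h.pr hx)]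
        rfl
      · rw [fR_of_not hy, fR_of_not (y := Ix.pr y) (fun ⟨x, hx⟩ => hy ⟨Ix.S x, by
          have := h.S hx
          rwa [Ix.S_pr] at this⟩)]
        rfl
    Q := fun y => by
      by_cases hy : ∃ x, ρ x y
      · obtain ⟨x, hx⟩ := hy
        rw [fR_of h hx]
        exact h.Q hx
      · rw [fR_of_not hy]
        exact Iff.rfl }

theorem emb_iter {A B : Type} [Ix A] [Ix B] (F : IxEmb A B) (n : ℕ) (i : A) :
    Ix.S^[n] (F.f i) = F.f (Ix.S^[n] i) := by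
  induction n with
  | zero => rfl
  | succ n ih => rw [Function.iterate_succ_apply', Function.iterate_succ_apply', ih, F.S]

theorem am_omits (h : PIso I J ρ) {P : Set ℕ} (hI : Omits P I) (hJ : Omits P J) :
    @Omits P (Am ρ) (amIx h) := by
  letI := amIx h
  rintro n hn ⟨u, h1, h2, h3⟩
  rcases u with x | y
  · refine hI n hn ⟨x, h1, fun k hk => ?_, ?_⟩
    · have h4 := h2 k hk
      change ¬ Ix.Q (Ix.S^[k + 1] ((emL h).f x)) at h4
      rwa [emb_iter, (emL h).Q] at h4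
    · change Ix.Q (Ix.S^[n + 1] ((emL h).f x)) at h3
      rwa [emb_iter, (emL h).Q] at h3
  · have hy : (Sum.inr y : Am ρ) = (emR h).f y.1 := (fR_of_not y.2).symm
    rw [hy] at h1 h2 h3
    refine hJ n hn ⟨y.1, ((emR h).Q _).1 h1, fun k hk => ?_, ?_⟩
    · have h4 := h2 k hk
      rwa [emb_iter, (emR h).Q] at h4
    · rwa [emb_iter, (emR h).Q] at h3

end amalgam

theorem amalg_mod {P : Set ℕ} (C D : Set ℕ) (M N : Mod P)
    (h : ∀ δ : Fml, δ.vars ⊆ C ∩ D → (M.ev δ = Ch.one ↔ N.ev δ = Ch.one)) :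
    ∃ T : Mod P, (∀ φ : Fml, φ.vars ⊆ C → M.ev φ = Ch.one → T.ev φ = Ch.one) ∧
      ∀ φ : Fml, φ.vars ⊆ D → T.ev φ = Ch.one → N.ev φ = Ch.one := by
  classical
  obtain ⟨I, ixI, neI, omI, v⟩ := M
  obtain ⟨J, ixJ, neJ, omJ, w⟩ := N
  change ∀ δ : Fml, δ.vars ⊆ C ∩ D → (evalC v δ = Ch.one ↔ evalC w δ = Ch.one) at h
  let R : Ch I → Ch J → Prop := fun a a' =>
    ∃ δ : Fml, δ.vars ⊆ C ∩ D ∧ evalC v δ = a ∧ evalC w δ = a'
  have Rone : ∀ {a a'}, R a a' → (a = Ch.one ↔ a' = Ch.one) := by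
    rintro _ _ ⟨δ, hδ, rfl, rfl⟩
    exact h δ hδ
  have Rres : ∀ {a a' d d'}, R a a' → R d d' → R (Ch.res a d) (Ch.res a' d') := by
    rintro _ _ _ _ ⟨δ, hδ, rfl, rfl⟩ ⟨ε, hε, rfl, rfl⟩
    exact ⟨.imp δ ε, Set.union_subset hδ hε, rfl, rfl⟩
  have Rmul : ∀ {a a' d d'}, R a a' → R d d' → R (Ch.mul a d) (Ch.mul a' d') := by
    rintro _ _ _ _ ⟨δ, hδ, rfl, rfl⟩ ⟨ε, hε, rfl, rfl⟩
    exact ⟨.mul δ ε, Set.union_subset hδ hε, rfl, rfl⟩
  have R0 : R Ch.zero Ch.zero := ⟨.f, Set.empty_subset _, rfl, rfl⟩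
  have R1 : R Ch.one Ch.one := ⟨.e, Set.empty_subset _, rfl, rfl⟩
  have Rle : ∀ {a a' d d'}, R a a' → R d d' → (Ch.le a d ↔ Ch.le a' d') := by
    intro a a' d d' h1 h2
    rw [← Ch.res_eq_one, ← Ch.res_eq_one]
    exact Rone (Rres h1 h2)
  have Rrank : ∀ {a a'}, R a a' → a.rank = a'.rank := by
    intro a a' h1
    have h2 := Rres (Rres h1 R0) R0
    exact ch_rank_eq a a' (Rle h1 R0) (Rle R1 h1) (Rle h2 h1) (Rle (Rmul h2 h2) R0)
  -- the two kinds of elements
  have Rzt : ∀ {i j}, R (Ch.z i) (Ch.z j) → R (Ch.t i) (Ch.t j) := by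
    intro i j h1
    have h2 : R Ch.c Ch.c := Rres h1 R0
    exact Rres h2 h1
  have Rtz : ∀ {i j}, R (Ch.t i) (Ch.t j) → R (Ch.z i) (Ch.z j) := by
    intro i j h1
    have h2 : R Ch.c Ch.c := Rres (Rres h1 R0) R0
    exact Rmul h2 h1
  have RS : ∀ {i j}, R (Ch.t i) (Ch.t j) → R (Ch.t (Ix.S i)) (Ch.t (Ix.S j)) := by
    intro i j h1
    refine Rzt ?_
    have h2 := Rmul h1 h1
    simp only [Ch.mul] at h2
    rwa [Ix.phi_of_le le_rfl, Ix.phi_of_le le_rfl, if_pos (Ix.b_lt i).le,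
      if_pos (Ix.b_lt j).le] at h2
  have Rb : ∀ {i j}, R (Ch.t i) (Ch.t j) → R (Ch.t (Ix.b i)) (Ch.t (Ix.b j)) := by
    intro i j h1
    have h2 := Rres h1 (Rtz (RS h1))
    simp only [Ch.res] at h2
    rw [if_neg (not_le.2 (Ix.lt_S i)), if_neg (not_le.2 (Ix.lt_S j))] at h2
    simpa only [if_true] using h2
  have RQ : ∀ {i j}, R (Ch.t i) (Ch.t j) → (Ix.Q i ↔ Ix.Q j) := by
    intro i j h1
    have h2 := RS (Rb h1)
    have h3 : Ix.S (Ix.b i) = i ↔ Ix.S (Ix.b j) = j := by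
      constructor
      · intro h4
        rw [h4] at h2
        have h5 := (Rle h2 h1).1 (Ch.le_refl' _)
        have h6 := (Rle h1 h2).1 (Ch.le_refl' _)
        exact Ch.t.inj (Ch.le_antisymm' h5 h6)
      · intro h4
        rw [h4] at h2
        have h5 := (Rle h2 h1).2 (Ch.le_refl' _)
        have h6 := (Rle h1 h2).2 (Ch.le_refl' _)
        exact Ch.t.inj (Ch.le_antisymm' h5 h6)
    rw [Ix.S_b, Ix.S_b] at h3
    tauto
  have hρ : PIso I J fun i j => R (Ch.t i) (Ch.t j) := by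
    refine ⟨fun {i i' j j'} h1 h2 => ?_, fun h1 => RS h1, fun {i i'} h1 => ?_, fun h1 => RQ h1⟩
    · have := Rle h2 h1
      simpa [Ch.le] using this
    · have h2 := Rb h1
      have h3 := RQ h1
      by_cases hQ : Ix.Q i
      · have h4 := RS h2
        rwa [Ix.b, Ix.b, if_pos hQ, if_pos (h3.1 hQ), Ix.S_pr, Ix.S_pr] at h4
      · rwa [Ix.b, Ix.b, if_neg hQ, if_neg (fun h => hQ (h3.2 h))] at h2
  letI := amIx hρ
  have key : ∀ n ∈ C ∩ D, mapC (emL hρ).f (v n) = mapC (emR hρ).f (w n) := by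
    intro n hn
    have h1 : R (v n) (w n) := ⟨.var n, by rintro _ rfl; exact hn, rfl, rfl⟩
    have h2 := Rrank h1
    have h3 : ∀ {i j}, R (Ch.t i) (Ch.t j) → (emL hρ).f i = (emR hρ).f j := fun h =>
      (fR_of hρ h).symm
    revert h1 h2
    generalize v n = x
    generalize w n = y
    intro h1 h2
    cases x <;> cases y <;> simp [Ch.rank] at h2
    · rfl
    · exact congrArg Ch.z (h3 (Rzt h1))
    · rfl
    · exact congrArg Ch.t (h3 h1)
    · rfl
    · rfl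
  refine ⟨⟨Am _, amIx hρ, ⟨(emL hρ).f neI.some⟩, am_omits hρ omI omJ,
    fun n => if n ∈ C then mapC (emL hρ).f (v n) else mapC (emR hρ).f (w n)⟩, ?_, ?_⟩
  · intro φ hφ h1
    change evalC (fun n => if n ∈ C then mapC (emL hρ).f (v n) else mapC (emR hρ).f (w n)) φ =
      Ch.one
    rw [evalC_congr (w := fun n => mapC (emL hρ).f (v n)) φ (fun n hn => if_pos (hφ hn)),
      mapC_eval, mapC_one]
    exact h1
  · intro φ hφ h1
    change evalC (fun n => if n ∈ C then mapC (emL hρ).f (v n) else mapC (emR hρ).f (w n)) φ =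
      Ch.one at h1
    rw [evalC_congr (w := fun n => mapC (emR hρ).f (w n)) φ (fun n hn => by
      by_cases hC : n ∈ C
      · simp only [hC, if_true]
        exact key n ⟨hC, hφ hn⟩
      · simp only [hC, if_false]), mapC_eval, mapC_one] at h1
    exact h1

/-- The logic of the class of `P` has deductive interpolation. -/
theorem consP_DIP (P : Set ℕ) : DIP (ConsP P) := consP_dip amalg_mod

end Pool.Agent.Q217.MTL
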