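import Pool.Agent.Q217.MTL.ChainUltra

set_option autoImplicit false

/-!
# The logics of the classes of chains, interpolation
-/

namespace Pool.Agent.Q217.MTL

open Pool.Agent.Q217.FL

/-- The consequence relation of the class of `P`. -/
def ConsP (P : Set ℕ) (Γ : Set Fml) (φ : Fml) : Prop :=
  ∀ M : Mod P, (∀ γ ∈ Γ, M.ev γ = Ch.one) → M.ev φ = Ch.one

namespace Mod

variable {P : Set ℕ} (M : Mod P)

theorem ev_andL (l : List Fml) : M.ev (andL l) = Ch.one ↔ ∀ φ ∈ l, M.ev φ = Ch.one :=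
  @evalC_andL M.I M.ix M.v l

theorem ev_orL (l : List Fml) : M.ev (orL l) = Ch.one ↔ ∃ φ ∈ l, M.ev φ = Ch.one :=
  @evalC_orL M.I M.ix M.v l

theorem ev_imp3 (φ ψ : Fml) : M.ev (imp3 φ ψ) = Ch.one ↔ (M.ev φ = Ch.one → M.ev ψ = Ch.one) :=
  @evalC_imp3 M.I M.ix M.v φ ψ

end Mod

/-- The logic of the class of `P` is an axiomatic extension of MTL. -/
theorem consP_ext (P : Set ℕ) : MTLExtension (ConsP P) := by
  classical
  refine ⟨{α | ∀ M : Mod P, M.ev α = Ch.one}, fun α hα s M => ?_, fun Γ φ => ⟨?_, ?_⟩⟩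
  · refine (@evalC_subst M.I M.ix M.v s α).trans ?_
    exact hα ⟨M.I, M.ix, M.ne, M.om, fun n => M.ev (s n)⟩
  · intro h A _ v hv
    have h1 : ∃ F : Finset Fml, ∀ M : Mod P,
        (∀ ψ ∈ F, ψ ∈ Γ → M.ev ψ = Ch.one) → M.ev φ = Ch.one := by
      by_contra hc
      push Not at hc
      obtain ⟨M, hM1, hM2⟩ := Mod.compactness Γ {φ} (by
        intro F
        obtain ⟨M, hM1, hM2⟩ := hc F
        refine ⟨M, fun ψ hψ => ⟨hM1 ψ hψ, fun h3 => ?_⟩⟩
        rw [Set.mem_singleton_iff.1 h3]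
        exact hM2)
      exact hM2 φ rfl (h M hM1)
    obtain ⟨F, hF⟩ := h1
    have h2 : imp3 (andL (F.filter (· ∈ Γ)).toList) φ ∈
        {α | ∀ M : Mod P, M.ev α = Ch.one} := by
      intro M
      rw [Mod.ev_imp3, Mod.ev_andL]
      intro h3
      refine hF M fun ψ hψ hψ' => h3 ψ ?_
      rw [Finset.mem_toList, Finset.mem_filter]
      exact ⟨hψ, hψ'⟩
    have h3 := hv _ (Or.inr h2)
    have h4 : eval v (andL (F.filter (· ∈ Γ)).toList) = 1 := by
      rw [eval_andL]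
      intro ψ hψ
      rw [Finset.mem_toList, Finset.mem_filter] at hψ
      exact hv ψ (Or.inl hψ.2)
    rw [imp3, eval, eval, eval, h4, mul_one, mul_one] at h3
    have h5 : (1 : A) ≤ FLewAlgebra.res 1 (eval v φ) := by rw [h3]
    rw [← FLewAlgebra.mul_le_iff, mul_one] at h5
    refine le_antisymm ?_ h5
    rw [FLewAlgebra.one_eq_top]
    exact le_top
  · intro h M hM
    have := h (Ch M.I) (@chMTL M.I M.ix) M.v (by
      intro γ hγ
      refine (@evalC_eq M.I M.ix M.v γ).trans ?_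
      rcases hγ with hγ | hγ
      · exact hM γ hγ
      · exact hγ M)
    exact (@evalC_eq M.I M.ix M.v φ).symm.trans this

/-- Amalgamation implies deductive interpolation. -/
theorem consP_dip {P : Set ℕ}
    (amalg : ∀ (C D : Set ℕ) (M N : Mod P),
      (∀ δ : Fml, δ.vars ⊆ C ∩ D → (M.ev δ = Ch.one ↔ N.ev δ = Ch.one)) →
      ∃ T : Mod P, (∀ φ : Fml, φ.vars ⊆ C → M.ev φ = Ch.one → T.ev φ = Ch.one) ∧
        ∀ φ : Fml, φ.vars ⊆ D → T.ev φ = Ch.one → N.ev φ = Ch.one) :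
    DIP (ConsP P) := by
  classical
  intro Γ φ hΓφ
  refine ⟨{δ | δ.vars ⊆ varsOf Γ ∩ φ.vars ∧ ConsP P Γ δ}, ?_, fun δ hδ => hδ.2, ?_⟩
  · rintro n ⟨δ, hδ, hn⟩
    exact hδ.1 hn
  · intro N hN
    by_contra hc
    obtain ⟨M, hM1, hM2⟩ := Mod.compactness (P := P)
      (Γ ∪ {δ | δ.vars ⊆ varsOf Γ ∩ φ.vars ∧ N.ev δ = Ch.one})
      {δ | δ.vars ⊆ varsOf Γ ∩ φ.vars ∧ N.ev δ ≠ Ch.one} (by
        intro F
        by_contra hF
        push Not at hF
        set θ := andL (F.filter fun δ => δ.vars ⊆ varsOf Γ ∩ φ.vars ∧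
          N.ev δ = Ch.one).toList with hθ
        set η := orL (F.filter fun δ => δ.vars ⊆ varsOf Γ ∩ φ.vars ∧
          N.ev δ ≠ Ch.one).toList with hη
        have h1 : ConsP P Γ (imp3 θ η) := by
          intro M hM
          rw [Mod.ev_imp3, hθ, hη, Mod.ev_andL, Mod.ev_orL]
          intro h2
          obtain ⟨ψ, hψ, h3⟩ := hF M
          by_cases h4 : ψ ∈ {δ | δ.vars ⊆ varsOf Γ ∩ φ.vars ∧ N.ev δ ≠ Ch.one} ∧
              M.ev ψ = Ch.one
          · refine ⟨ψ, ?_, h4.2⟩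
            rw [Finset.mem_toList, Finset.mem_filter]
            exact ⟨hψ, h4.1⟩
          · exfalso
            have h5 : ψ ∈ Γ ∪ {δ | δ.vars ⊆ varsOf Γ ∩ φ.vars ∧ N.ev δ = Ch.one} →
                M.ev ψ = Ch.one := by
              rintro (h5 | h5)
              · exact hM ψ h5
              · refine h2 ψ ?_
                rw [Finset.mem_toList, Finset.mem_filter]
                exact ⟨hψ, h5⟩
            obtain ⟨h6, h7⟩ := h3 h5
            exact h4 ⟨h6, h7⟩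
        have h2 : N.ev (imp3 θ η) = Ch.one := by
          refine hN _ ⟨vars_imp3 (vars_andL ?_) (vars_orL ?_), h1⟩
          · intro δ hδ
            rw [Finset.mem_toList, Finset.mem_filter] at hδ
            exact hδ.2.1
          · intro δ hδ
            rw [Finset.mem_toList, Finset.mem_filter] at hδ
            exact hδ.2.1
        rw [Mod.ev_imp3, hθ, hη, Mod.ev_andL, Mod.ev_orL] at h2
        obtain ⟨ψ, h3, h4⟩ := h2 (by
          intro ψ hψ
          rw [Finset.mem_toList, Finset.mem_filter] at hψ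
          exact hψ.2.2)
        rw [Finset.mem_toList, Finset.mem_filter] at h3
        exact h3.2.2 h4)
    obtain ⟨T, hT1, hT2⟩ := amalg (varsOf Γ) φ.vars M N (by
      intro δ hδ
      constructor
      · intro h1
        by_contra h2
        exact hM2 δ ⟨hδ, h2⟩ h1
      · intro h1
        exact hM1 δ (Or.inr ⟨hδ, h1⟩))
    refine hc (hT2 φ subset_rfl (hΓφ T fun γ hγ => hT1 γ ?_ (hM1 γ (Or.inl hγ))))
    intro n hn
    exact ⟨γ, hγ, hn⟩

/-- The four tests that determine the sort of an element. -/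
theorem ch_rank_eq {I J : Type} [Ix I] [Ix J] (a : Ch I) (a' : Ch J)
    (h0 : Ch.le a Ch.zero ↔ Ch.le a' Ch.zero)
    (h5 : Ch.le Ch.one a ↔ Ch.le Ch.one a')
    (h1 : Ch.le (Ch.res (Ch.res a Ch.zero) Ch.zero) a ↔
      Ch.le (Ch.res (Ch.res a' Ch.zero) Ch.zero) a')
    (h2 : Ch.le (Ch.mul (Ch.res (Ch.res a Ch.zero) Ch.zero)
        (Ch.res (Ch.res a Ch.zero) Ch.zero)) Ch.zero ↔
      Ch.le (Ch.mul (Ch.res (Ch.res a' Ch.zero) Ch.zero)
        (Ch.res (Ch.res a' Ch.zero) Ch.zero)) Ch.zero) : a.rank = a'.rank := by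
  cases a <;> cases a' <;>
    simp_all [Ch.le, Ch.rank, Ch.res, Ch.mul]

/-- Embeddings of index structures. -/
structure IxEmb (I D : Type) [Ix I] [Ix D] where
  /-- the map -/
  f : I → D
  le : ∀ i j, f i ≤ f j ↔ i ≤ j
  S : ∀ i, f (Ix.S i) = Ix.S (f i)
  pr : ∀ i, f (Ix.pr i) = Ix.pr (f i)
  Q : ∀ i, Ix.Q (f i) ↔ Ix.Q i

/-- The map of the chains. -/
def mapC {I D : Type} (f : I → D) : Ch I → Ch D
  | .zero => .zero
  | .z i => .z (f i)
  | .zs => .zs
  | .t i => .t (f i)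
  | .c => .c
  | .one => .one

section emb

variable {I D : Type} [Ix I] [Ix D] (F : IxEmb I D)

theorem IxEmb.inj {i j : I} (h : F.f i = F.f j) : i = j :=
  le_antisymm ((F.le i j).1 h.le) ((F.le j i).1 h.ge)

theorem IxEmb.b (i : I) : F.f (Ix.b i) = Ix.b (F.f i) := by
  have hQ := F.Q i
  unfold Ix.b
  split_ifs
  · rw [F.pr, F.pr]
  · tauto
  · tauto
  · rw [F.pr]

theorem IxEmb.phi (i j : I) : F.f (Ix.phi i j) = Ix.phi (F.f i) (F.f j) := by
  unfold Ix.phi
  simp only [← F.b, ← F.S, F.le]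
  split_ifs <;> rfl

theorem mapC_one (u : Ch I) : mapC F.f u = Ch.one ↔ u = Ch.one := by
  cases u <;> simp [mapC]

theorem mapC_le (u w : Ch I) : Ch.le (mapC F.f u) (mapC F.f w) ↔ Ch.le u w := by
  cases u <;> cases w <;> simp [mapC, Ch.le, Ch.rank, F.le]

theorem mapC_mul (u w : Ch I) : mapC F.f (Ch.mul u w) = Ch.mul (mapC F.f u) (mapC F.f w) := by
  cases u <;> cases w <;> simp [mapC, Ch.mul, F.phi]

theorem mapC_res (u w : Ch I) : mapC F.f (Ch.res u w) = Ch.res (mapC F.f u) (mapC F.f w) := by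
  cases u with
  | z i =>
    cases w with
    | z j =>
      simp only [mapC, Ch.res, F.le]
      split_ifs <;> rfl
    | _ => rfl
  | t i =>
    cases w with
    | z k =>
      have h1 : F.f k = Ix.S (F.f i) ↔ k = Ix.S i := by
        rw [← F.S]
        exact ⟨fun h => F.inj h, fun h => by rw [h]⟩
      have h2 : Ix.b (Ix.pr (F.f k)) ≤ F.f i ↔ Ix.b (Ix.pr k) ≤ i := by
        rw [← F.pr, ← F.b, F.le]
      simp only [mapC, Ch.res]
      by_cases h3 : k ≤ i
      · rw [if_pos h3, if_pos ((F.le _ _).2 h3)]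
      · rw [if_neg h3, if_neg (fun h => h3 ((F.le _ _).1 h))]
        simp only [Ch.t.injEq]
        by_cases h4 : k = Ix.S i
        · rw [if_pos h4, if_pos (h1.2 h4), F.b]
        · rw [if_neg h4, if_neg (fun h => h4 (h1.1 h))]
          by_cases h5 : Ix.b (Ix.pr k) ≤ i
          · rw [if_pos h5, if_pos (h2.2 h5), F.pr]
          · rw [if_neg h5, if_neg (fun h => h5 (h2.1 h))]
    | t j =>
      simp only [mapC, Ch.res, F.le]
      split_ifs <;> rfl
    | _ => rfl
  | _ => cases w <;> rfl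

theorem mapC_eval (v : ℕ → Ch I) (φ : Fml) :
    evalC (fun n => mapC F.f (v n)) φ = mapC F.f (evalC v φ) := by
  induction φ with
  | var n => rfl
  | and φ ψ ih1 ih2 =>
    rw [evalC, evalC, ih1, ih2]
    have q1 := mapC_le F (evalC v φ) (evalC v ψ)
    unfold Ch.inf
    split_ifs <;> first | rfl | (exfalso; tauto)
  | or φ ψ ih1 ih2 =>
    rw [evalC, evalC, ih1, ih2]
    have q1 := mapC_le F (evalC v φ) (evalC v ψ)
    unfold Ch.sup
    split_ifs <;> first | rfl | (exfalso; tauto)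
  | mul φ ψ ih1 ih2 => rw [evalC, evalC, ih1, ih2, mapC_mul]
  | imp φ ψ ih1 ih2 => rw [evalC, evalC, ih1, ih2, mapC_res]
  | e => rfl
  | f => rfl

end emb

end Pool.Agent.Q217.MTL
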