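import Pool.Agent.Q217.MTL.Chain

set_option autoImplicit false

/-!
# Ultraproducts of discrete orders, compactness
-/

namespace Pool.Agent.Q217.MTL

open Pool.Agent.Q217.FL

/-- No gap `n` (two elements in `Q` at distance `n + 1` with no element in `Q` between) for
`n ∉ P`. -/
def Omits (P : Set ℕ) (I : Type) [Ix I] : Prop :=
  ∀ n ∉ P, ¬ ∃ i : I, Ix.Q i ∧ (∀ k < n, ¬ Ix.Q (Ix.S^[k + 1] i)) ∧ Ix.Q (Ix.S^[n + 1] i)

section ultra

variable {ι : Type} (U : Ultrafilter ι) (I : ι → Type) [∀ i, Ix (I i)]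

/-- The ultraproduct of a family of types. -/
def UP (Z : ι → Type) : Type := Quotient ((U : Filter ι).productSetoid Z)

/-- The class of a family. -/
def UP.mk {Z : ι → Type} (f : ∀ i, Z i) : UP U Z := Quotient.mk _ f

theorem up_surj {Z : ι → Type} (a : UP U Z) : ∃ f, UP.mk U f = a :=
  Quotient.exists_rep a

theorem up_eq {Z : ι → Type} {f g : ∀ i, Z i} :
    UP.mk U f = UP.mk U g ↔ ∀ᶠ i in (U : Filter ι), f i = g i :=
  Quotient.eq

/-- The order of the ultraproduct. -/
def upLe : UP U I → UP U I → Prop :=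
  Quotient.lift₂ (fun f g => ∀ᶠ i in (U : Filter ι), f i ≤ g i) (by
    intro f g f' g' hf hg
    refine propext ⟨fun h => ?_, fun h => ?_⟩
    · filter_upwards [h, hf, hg] with i h1 h2 h3
      rw [← h2, ← h3]
      exact h1
    · filter_upwards [h, hf, hg] with i h1 h2 h3
      rw [h2, h3]
      exact h1)

/-- The successor of the ultraproduct. -/
def upS : UP U I → UP U I :=
  Quotient.map (fun f i => Ix.S (f i)) (by
    intro f g h
    change ∀ᶠ i in (U : Filter ι), _
    filter_upwards [h] with i h1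
    rw [h1])

/-- The predecessor of the ultraproduct. -/
def upPr : UP U I → UP U I :=
  Quotient.map (fun f i => Ix.pr (f i)) (by
    intro f g h
    change ∀ᶠ i in (U : Filter ι), _
    filter_upwards [h] with i h1
    rw [h1])

/-- The predicate of the ultraproduct. -/
def upQ : UP U I → Prop :=
  Quotient.lift (fun f => ∀ᶠ i in (U : Filter ι), Ix.Q (f i)) (by
    intro f g h
    refine propext ⟨fun h' => ?_, fun h' => ?_⟩
    · filter_upwards [h, h'] with i h1 h2
      rw [← h1]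
      exact h2
    · filter_upwards [h, h'] with i h1 h2
      rw [h1]
      exact h2)

open Classical in
/-- The linear order of the ultraproduct. -/
@[reducible]
noncomputable def upLin : LinearOrder (UP U I) where
  le := upLe U I
  le_refl a := by
    obtain ⟨f, rfl⟩ := up_surj U a
    exact Filter.Eventually.of_forall fun i => le_rfl
  le_trans a b c := by
    obtain ⟨f, rfl⟩ := up_surj U a
    obtain ⟨g, rfl⟩ := up_surj U b
    obtain ⟨h, rfl⟩ := up_surj U c
    intro h1 h2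
    change ∀ᶠ i in (U : Filter ι), _ at h1
    change ∀ᶠ i in (U : Filter ι), _ at h2
    change ∀ᶠ i in (U : Filter ι), _
    filter_upwards [h1, h2] with i h3 h4
    exact h3.trans h4
  le_antisymm a b := by
    obtain ⟨f, rfl⟩ := up_surj U a
    obtain ⟨g, rfl⟩ := up_surj U b
    intro h1 h2
    change ∀ᶠ i in (U : Filter ι), _ at h1
    change ∀ᶠ i in (U : Filter ι), _ at h2
    refine (up_eq U).2 ?_
    filter_upwards [h1, h2] with i h3 h4
    exact le_antisymm h3 h4
  le_total a b := by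
    obtain ⟨f, rfl⟩ := up_surj U a
    obtain ⟨g, rfl⟩ := up_surj U b
    change (∀ᶠ i in (U : Filter ι), _) ∨ (∀ᶠ i in (U : Filter ι), _)
    rw [← Ultrafilter.eventually_or]
    exact Filter.Eventually.of_forall fun i => le_total _ _
  toDecidableLE := Classical.decRel _

noncomputable instance upLO : LinearOrder (UP U I) := upLin U I

noncomputable instance upIx : Ix (UP U I) where
  S := upS U I
  pr := upPr U I
  Q := upQ U I
  S_pr a := by
    obtain ⟨f, rfl⟩ := up_surj U a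
    exact (up_eq U).2 (Filter.Eventually.of_forall fun i => Ix.S_pr (f i))
  pr_S a := by
    obtain ⟨f, rfl⟩ := up_surj U a
    exact (up_eq U).2 (Filter.Eventually.of_forall fun i => Ix.pr_S (f i))
  lt_iff a b := by
    rw [← not_le]
    obtain ⟨f, rfl⟩ := up_surj U a
    obtain ⟨g, rfl⟩ := up_surj U b
    change (¬ ∀ᶠ i in (U : Filter ι), g i ≤ f i) ↔ ∀ᶠ i in (U : Filter ι), Ix.S (f i) ≤ g i
    rw [← Ultrafilter.eventually_not]
    refine Filter.eventually_congr (Filter.Eventually.of_forall fun i => ?_)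
    rw [not_le, Ix.lt_iff]

variable {I}

theorem up_le (f g : ∀ i, I i) : UP.mk U f ≤ UP.mk U g ↔
    ∀ᶠ i in (U : Filter ι), f i ≤ g i := Iff.rfl

theorem up_S (f : ∀ i, I i) : Ix.S (UP.mk U f) =
    UP.mk U (fun i => Ix.S (f i)) := rfl

theorem up_pr (f : ∀ i, I i) : Ix.pr (UP.mk U f) =
    UP.mk U (fun i => Ix.pr (f i)) := rfl

theorem up_Q (f : ∀ i, I i) : Ix.Q (UP.mk U f) ↔
    ∀ᶠ i in (U : Filter ι), Ix.Q (f i) := Iff.rfl

theorem up_b (f : ∀ i, I i) : Ix.b (UP.mk U f) =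
    UP.mk U (fun i => Ix.b (f i)) := by
  unfold Ix.b
  by_cases h : Ix.Q (UP.mk U f)
  · rw [if_pos h, up_pr, up_pr, up_eq]
    filter_upwards [(up_Q U f).1 h] with i hi
    rw [if_pos hi]
  · rw [if_neg h, up_pr, up_eq]
    rw [up_Q, ← Ultrafilter.eventually_not] at h
    filter_upwards [h] with i hi
    rw [if_neg hi]

theorem up_phi (f g : ∀ i, I i) : Ix.phi (UP.mk U f) (UP.mk U g) =
    UP.mk U (fun i => Ix.phi (f i) (g i)) := by
  have aux : ∀ f g : ∀ i, I i, UP.mk U g ≤ UP.mk U f →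
      Ix.phi (UP.mk U f) (UP.mk U g) =
        UP.mk U (fun i => Ix.phi (f i) (g i)) := by
    intro f g h
    rw [Ix.phi_of_le h, up_b]
    have h' := (up_le U _ _).1 h
    by_cases h2 : (UP.mk U fun i => Ix.b (f i)) ≤ UP.mk U g
    · rw [if_pos h2, up_S, up_eq]
      filter_upwards [(up_le U _ _).1 h2, h'] with i h3 h4
      rw [Ix.phi_of_le h4, if_pos h3]
    · rw [if_neg h2, up_eq]
      rw [up_le, ← Ultrafilter.eventually_not] at h2
      filter_upwards [h2, h'] with i h3 h4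
      rw [Ix.phi_of_le h4, if_neg h3]
  rcases le_total (UP.mk U g) (UP.mk U f) with h | h
  · exact aux f g h
  · rw [Ix.phi_comm, aux g f h]
    refine (up_eq U).2 (Filter.Eventually.of_forall fun i => ?_)
    exact Ix.phi_comm _ _

/-- The evaluation of a uniform element at `i`. -/
def ev (e : Ch (∀ i, I i)) (i : ι) : Ch (I i) :=
  match e with
  | .zero => .zero
  | .z d => .z (d i)
  | .zs => .zs
  | .t a => .t (a i)
  | .c => .c
  | .one => .one

/-- The class of a uniform element. -/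
def cls (e : Ch (∀ i, I i)) : Ch (UP U I) :=
  match e with
  | .zero => .zero
  | .z d => .z (UP.mk U d)
  | .zs => .zs
  | .t a => .t (UP.mk U a)
  | .c => .c
  | .one => .one

omit [∀ i, Ix (I i)] in
theorem cls_surj (a : Ch (UP U I)) : ∃ e, cls U e = a := by
  match a with
  | .zero => exact ⟨.zero, rfl⟩
  | .z d =>
    obtain ⟨f, rfl⟩ := up_surj U d
    exact ⟨.z f, rfl⟩
  | .zs => exact ⟨.zs, rfl⟩
  | .t d =>
    obtain ⟨f, rfl⟩ := up_surj U d
    exact ⟨.t f, rfl⟩
  | .c => exact ⟨.c, rfl⟩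
  | .one => exact ⟨.one, rfl⟩

theorem ch_cases {I : Type} (a : Ch I) :
    a = .zero ∨ (∃ d, a = .z d) ∨ a = .zs ∨ (∃ d, a = .t d) ∨ a = .c ∨ a = .one := by
  cases a <;> simp

omit [∀ i, Ix (I i)] in
theorem ev_surj (hI : ∀ i, Nonempty (I i)) (f : ∀ i, Ch (I i)) :
    ∃ e, ∀ᶠ i in (U : Filter ι), f i = ev e i := by
  classical
  have h : ∀ᶠ i in (U : Filter ι), f i = .zero ∨ (∃ d, f i = .z d) ∨ f i = .zs ∨
      (∃ d, f i = .t d) ∨ f i = .c ∨ f i = .one :=
    Filter.Eventually.of_forall fun i => ch_cases (f i)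
  simp only [Ultrafilter.eventually_or] at h
  rcases h with h | h | h | h | h | h
  · exact ⟨.zero, h⟩
  · refine ⟨.z fun i => if h : ∃ d, f i = .z d then h.choose else (hI i).some, ?_⟩
    filter_upwards [h] with i hi
    simp only [ev]
    rw [dif_pos hi]
    exact hi.choose_spec
  · exact ⟨.zs, h⟩
  · refine ⟨.t fun i => if h : ∃ d, f i = .t d then h.choose else (hI i).some, ?_⟩
    filter_upwards [h] with i hi
    simp only [ev]
    rw [dif_pos hi]
    exact hi.choose_spec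
  · exact ⟨.c, h⟩
  · exact ⟨.one, h⟩

theorem cls_le (e e' : Ch (∀ i, I i)) :
    Ch.le (cls U e) (cls U e') ↔ ∀ᶠ i in (U : Filter ι), Ch.le (ev e i) (ev e' i) := by
  have hU : (U : Filter ι) ≠ ⊥ := U.neBot.ne
  cases e <;> cases e' <;>
    simp [cls, ev, Ch.le, Ch.rank, up_le, hU]

omit [∀ i, Ix (I i)] in
theorem cls_eq (e e' : Ch (∀ i, I i)) :
    cls U e = cls U e' ↔ ∀ᶠ i in (U : Filter ι), ev e i = ev e' i := by
  have hU : (U : Filter ι) ≠ ⊥ := U.neBot.ne
  cases e <;> cases e' <;>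
    simp [cls, ev, up_eq, hU]

theorem cls_mul (e e' e'' : Ch (∀ i, I i))
    (h : ∀ᶠ i in (U : Filter ι), Ch.mul (ev e i) (ev e' i) = ev e'' i) :
    Ch.mul (cls U e) (cls U e') = cls U e'' := by
  obtain ⟨m, hm, hm'⟩ : ∃ m : Ch (∀ i, I i), (∀ i, Ch.mul (ev e i) (ev e' i) = ev m i) ∧
      Ch.mul (cls U e) (cls U e') = cls U m := by
    cases e with
    | zero => cases e' <;> exact ⟨.zero, fun _ => rfl, rfl⟩
    | one => exact ⟨e', fun i => Ch.one_mul' _, Ch.one_mul' _⟩
    | z d =>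
      cases e' with
      | one => exact ⟨.z d, fun i => rfl, rfl⟩
      | _ => exact ⟨.zero, fun _ => rfl, rfl⟩
    | zs =>
      cases e' with
      | one => exact ⟨.zs, fun i => rfl, rfl⟩
      | _ => exact ⟨.zero, fun _ => rfl, rfl⟩
    | t a =>
      cases e' with
      | one => exact ⟨.t a, fun i => rfl, rfl⟩
      | t a' => exact ⟨.z fun i => Ix.phi (a i) (a' i), fun i => rfl, congrArg Ch.z (up_phi U a a')⟩
      | c => exact ⟨.z a, fun i => rfl, rfl⟩
      | _ => exact ⟨.zero, fun _ => rfl, rfl⟩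
    | c =>
      cases e' with
      | one => exact ⟨.c, fun i => rfl, rfl⟩
      | t a' => exact ⟨.z a', fun i => rfl, rfl⟩
      | c => exact ⟨.zs, fun i => rfl, rfl⟩
      | _ => exact ⟨.zero, fun _ => rfl, rfl⟩
  rw [hm', cls_eq]
  filter_upwards [h] with i hi
  rw [← hm i, hi]

theorem cls_inf (e e' e'' : Ch (∀ i, I i))
    (h : ∀ᶠ i in (U : Filter ι), Ch.inf (ev e i) (ev e' i) = ev e'' i) :
    Ch.inf (cls U e) (cls U e') = cls U e'' := by
  unfold Ch.inf
  by_cases h1 : Ch.le (cls U e) (cls U e')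
  · rw [if_pos h1, cls_eq]
    filter_upwards [h, (cls_le U _ _).1 h1] with i h2 h3
    rw [← h2, Ch.inf, if_pos h3]
  · rw [if_neg h1, cls_eq]
    rw [cls_le, ← Ultrafilter.eventually_not] at h1
    filter_upwards [h, h1] with i h2 h3
    rw [← h2, Ch.inf, if_neg h3]

theorem cls_sup (e e' e'' : Ch (∀ i, I i))
    (h : ∀ᶠ i in (U : Filter ι), Ch.sup (ev e i) (ev e' i) = ev e'' i) :
    Ch.sup (cls U e) (cls U e') = cls U e'' := by
  unfold Ch.sup
  by_cases h1 : Ch.le (cls U e) (cls U e')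
  · rw [if_pos h1, cls_eq]
    filter_upwards [h, (cls_le U _ _).1 h1] with i h2 h3
    rw [← h2, Ch.sup, if_pos h3]
  · rw [if_neg h1, cls_eq]
    rw [cls_le, ← Ultrafilter.eventually_not] at h1
    filter_upwards [h, h1] with i h2 h3
    rw [← h2, Ch.sup, if_neg h3]

/-- Values of formulas in the ultraproduct. -/
theorem eval_cls (hI : ∀ i, Nonempty (I i))
    (v : ∀ i, ℕ → Ch (I i)) (w : ℕ → Ch (UP U I))
    (hw : ∀ n, ∃ e : Ch (∀ i, I i), (∀ᶠ i in (U : Filter ι), v i n = ev e i) ∧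
      w n = cls U e) (φ : Fml) :
    ∀ e : Ch (∀ i, I i), (∀ᶠ i in (U : Filter ι), evalC (v i) φ = ev e i) →
      evalC w φ = cls U e := by
  induction φ with
  | var n =>
    intro e he
    obtain ⟨e', he', hw'⟩ := hw n
    change w n = _
    rw [hw']
    refine (cls_eq U e' e).2 ?_
    filter_upwards [he, he'] with i h1 h2
    rw [← h2]
    exact h1
  | and φ ψ ih1 ih2 =>
    intro e he
    obtain ⟨e1, he1⟩ := ev_surj U hI fun i => evalC (v i) φ
    obtain ⟨e2, he2⟩ := ev_surj U hI fun i => evalC (v i) ψ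
    rw [evalC, ih1 e1 he1, ih2 e2 he2]
    refine cls_inf U e1 e2 e ?_
    filter_upwards [he, he1, he2] with i h3 h4 h5
    rw [← h3, ← h4, ← h5, evalC]
  | or φ ψ ih1 ih2 =>
    intro e he
    obtain ⟨e1, he1⟩ := ev_surj U hI fun i => evalC (v i) φ
    obtain ⟨e2, he2⟩ := ev_surj U hI fun i => evalC (v i) ψ
    rw [evalC, ih1 e1 he1, ih2 e2 he2]
    refine cls_sup U e1 e2 e ?_
    filter_upwards [he, he1, he2] with i h3 h4 h5
    rw [← h3, ← h4, ← h5, evalC]
  | mul φ ψ ih1 ih2 =>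
    intro e he
    obtain ⟨e1, he1⟩ := ev_surj U hI fun i => evalC (v i) φ
    obtain ⟨e2, he2⟩ := ev_surj U hI fun i => evalC (v i) ψ
    rw [evalC, ih1 e1 he1, ih2 e2 he2]
    refine cls_mul U e1 e2 e ?_
    filter_upwards [he, he1, he2] with i h3 h4 h5
    rw [← h3, ← h4, ← h5, evalC]
  | imp φ ψ ih1 ih2 =>
    intro e he
    obtain ⟨e1, he1⟩ := ev_surj U hI fun i => evalC (v i) φ
    obtain ⟨e2, he2⟩ := ev_surj U hI fun i => evalC (v i) ψ
    rw [evalC, ih1 e1 he1, ih2 e2 he2]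
    refine Ch.eq_of_le_iff fun z => ?_
    obtain ⟨e3, rfl⟩ := cls_surj U z
    obtain ⟨e4, he4⟩ := ev_surj U hI fun i => Ch.mul (ev e1 i) (ev e3 i)
    rw [← Ch.res_spec, cls_mul U e1 e3 e4 he4, cls_le, cls_le]
    refine Filter.eventually_congr ?_
    filter_upwards [he, he1, he2, he4] with i h3 h4 h5 h7
    rw [← h3, ← h5, ← h7, ← h4, evalC, Ch.res_spec]
  | e =>
    intro e he
    refine (cls_eq U Ch.one e).2 ?_
    filter_upwards [he] with i h1
    exact h1
  | f =>
    intro e he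
    refine (cls_eq U Ch.zero e).2 ?_
    filter_upwards [he] with i h1
    exact h1

theorem up_iter (f : ∀ i, I i) (n : ℕ) : Ix.S^[n] (UP.mk U f) =
    UP.mk U (fun i => Ix.S^[n] (f i)) := by
  induction n with
  | zero => rfl
  | succ n ih =>
    rw [Function.iterate_succ_apply', ih, up_S]
    refine (up_eq U).2 (Filter.Eventually.of_forall fun i => ?_)
    rw [Function.iterate_succ_apply']

theorem up_omits {P : Set ℕ} (h : ∀ i, Omits P (I i)) : Omits P (UP U I) := by
  rintro n hn ⟨a, h1, h2, h3⟩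
  obtain ⟨f, rfl⟩ := up_surj U a
  rw [up_Q] at h1
  rw [up_iter, up_Q] at h3
  have h4 : ∀ᶠ i in (U : Filter ι), ∀ k : Fin n, ¬ Ix.Q (Ix.S^[(k : ℕ) + 1] (f i)) := by
    rw [Filter.eventually_all]
    intro k
    have h5 := h2 k k.2
    rw [up_iter, up_Q, ← Ultrafilter.eventually_not] at h5
    exact h5
  obtain ⟨i, h5, h6, h7⟩ := (h1.and (h3.and h4)).exists
  exact h i n hn ⟨f i, h5, fun k hk => h7 ⟨k, hk⟩, h6⟩

end ultra

/-- A chain in the class of `P` with a valuation. -/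
structure Mod (P : Set ℕ) where
  /-- indices -/
  I : Type
  /-- structure -/
  ix : Ix I
  ne : Nonempty I
  om : Omits P I
  /-- valuation -/
  v : ℕ → Ch I

/-- The value of a formula in a model. -/
noncomputable def Mod.ev {P : Set ℕ} (M : Mod P) (φ : Fml) : Ch M.I :=
  @evalC M.I M.ix M.v φ

/-- Compactness for the class of `P`. -/
theorem Mod.compactness {P : Set ℕ} (Pos Neg : Set Fml)
    (h : ∀ F : Finset Fml, ∃ M : Mod P, ∀ φ ∈ F, (φ ∈ Pos → M.ev φ = Ch.one) ∧
      (φ ∈ Neg → M.ev φ ≠ Ch.one)) :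
    ∃ M : Mod P, (∀ φ ∈ Pos, M.ev φ = Ch.one) ∧ ∀ φ ∈ Neg, M.ev φ ≠ Ch.one := by
  choose M hM using h
  set U : Ultrafilter (Finset Fml) := Ultrafilter.of Filter.atTop with hU
  have hUle : (U : Filter (Finset Fml)) ≤ Filter.atTop := Ultrafilter.of_le _
  let J : Finset Fml → Type := fun i => (M i).I
  let inst : ∀ i, Ix (J i) := fun i => (M i).ix
  have hI : ∀ i, Nonempty (J i) := fun i => (M i).ne
  have h1 : ∀ n, ∃ e : Ch (∀ i, J i),
      ∀ᶠ i in (U : Filter (Finset Fml)), (M i).v n = Q217.MTL.ev e i := fun n =>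
    ev_surj U hI fun i => (M i).v n
  choose e he using h1
  have h2 : ∀ φ, ∀ e' : Ch (∀ i, J i),
      (∀ᶠ i in (U : Filter (Finset Fml)), (M i).ev φ = Q217.MTL.ev e' i) →
      evalC (fun n => cls U (e n)) φ = cls U e' := fun φ =>
    eval_cls U hI (fun i => (M i).v) (fun n => cls U (e n))
      (fun n => ⟨e n, he n, rfl⟩) φ
  have h3 : ∀ φ : Fml, ∀ᶠ F : Finset Fml in (U : Filter (Finset Fml)), φ ∈ F := by
    intro φ
    have h4 : ∀ᶠ F : Finset Fml in Filter.atTop, φ ∈ F := by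
      filter_upwards [Filter.eventually_ge_atTop {φ}] with F hF
      exact hF (Finset.mem_singleton_self φ)
    exact hUle h4
  refine ⟨⟨UP U J, inferInstance, ⟨UP.mk U fun i => (hI i).some⟩,
    up_omits U fun i => (M i).om, fun n => cls U (e n)⟩, ?_, ?_⟩
  · intro φ hφ
    refine h2 φ Ch.one ?_
    filter_upwards [h3 φ] with F hF
    exact (hM F φ hF).1 hφ
  · intro φ hφ h4
    obtain ⟨e', he'⟩ := ev_surj U hI fun i => (M i).ev φ
    have h5 := h2 φ e' he'
    have h6 : cls U e' = cls U Ch.one := h5.symm.trans h4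
    rw [cls_eq] at h6
    obtain ⟨i, h7, h8, h9⟩ := (he'.and (h6.and (h3 φ))).exists
    refine (hM i φ h9).2 hφ ?_
    rw [h7, h8]
    rfl

end Pool.Agent.Q217.MTL
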