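import Pool.Agent.Q217.FL.Defs

set_option autoImplicit false

/-!
# MTL, finite MTL-chains given by tables, and deductive interpolation
-/

namespace Pool.Agent.Q217.MTL

open Pool.Agent.Q217.FL

/-- MTL-algebras: bounded integral commutative residuated lattices with prelinearity. -/
class MTLAlgebra (A : Type) extends FLewAlgebra A where
  prelin : ∀ a b : A, FLewAlgebra.res a b ⊔ FLewAlgebra.res b a = 1

/-- The consequence relation of MTL. -/
def MTL (Γ : Set Fml) (φ : Fml) : Prop :=
  ∀ (A : Type) (_ : MTLAlgebra A) (v : ℕ → A), (∀ γ ∈ Γ, eval v γ = 1) → eval v φ = 1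

/-- Axiomatic extensions of MTL: the relation `R` is obtained by adding a set `Ax` of axioms that is
closed under substitution. -/
def MTLExtension (R : Set Fml → Fml → Prop) : Prop :=
  ∃ Ax : Set Fml, (∀ α ∈ Ax, ∀ s : ℕ → Fml, α.subst s ∈ Ax) ∧ ∀ Γ φ, R Γ φ ↔ MTL (Γ ∪ Ax) φ

/-- A finite MTL-chain with 11 elements in which the cube of every nonunit is the least element. -/
structure Tab where
  /-- the product -/
  mul : Fin 11 → Fin 11 → Fin 11
  /-- the residual -/
  res : Fin 11 → Fin 11 → Fin 11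
  comm : ∀ a b, mul a b = mul b a
  assoc : ∀ a b c, mul (mul a b) c = mul a (mul b c)
  one_mul : ∀ a, mul 10 a = a
  resid : ∀ a b c, mul a b ≤ c ↔ b ≤ res a c
  cube : ∀ a, a ≠ 10 → mul a (mul a a) = 0

/-- The algebra of a table. -/
def TAlg (_t : Tab) : Type := Fin 11

instance (t : Tab) : LinearOrder (TAlg t) := inferInstanceAs (LinearOrder (Fin 11))

instance (t : Tab) : BoundedOrder (TAlg t) := inferInstanceAs (BoundedOrder (Fin 11))

/-- The monoid of a table. -/
@[reducible]
def tmon (t : Tab) : CommMonoid (TAlg t) where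
  mul := t.mul
  mul_assoc := t.assoc
  one := (10 : Fin 11)
  one_mul := t.one_mul
  mul_one a := (t.comm a 10).trans (t.one_mul a)
  mul_comm := t.comm

instance (t : Tab) : CommMonoid (TAlg t) := tmon t

theorem res_total (t : Tab) (a b : Fin 11) (h : a ≤ b) : t.res a b = 10 := by
  have h1 : (10 : Fin 11) ≤ t.res a b := by
    rw [← t.resid, t.comm, t.one_mul]
    exact h
  exact le_antisymm (Fin.le_last _) h1

instance (t : Tab) : FLewAlgebra (TAlg t) where
  res := t.res
  one_eq_top := rfl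
  mul_le_iff := t.resid

instance (t : Tab) : MTLAlgebra (TAlg t) where
  prelin a b := by
    change max (t.res a b) (t.res b a) = (10 : Fin 11)
    rcases le_total (α := Fin 11) a b with h | h
    · rw [res_total t a b h]
      exact max_eq_left (Fin.le_last _)
    · rw [res_total t b a h]
      exact max_eq_right (Fin.le_last _)

/-- The value of a formula. -/
def evalT (t : Tab) (v : ℕ → Fin 11) : Fml → Fin 11
  | .var n => v n
  | .and φ ψ => min (evalT t v φ) (evalT t v ψ)
  | .or φ ψ => max (evalT t v φ) (evalT t v ψ)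
  | .mul φ ψ => t.mul (evalT t v φ) (evalT t v ψ)
  | .imp φ ψ => t.res (evalT t v φ) (evalT t v ψ)
  | .e => 10
  | .f => 0

theorem eval_eq (t : Tab) (v : ℕ → Fin 11) (φ : Fml) :
    eval (A := TAlg t) v φ = evalT t v φ := by
  induction φ with
  | var n => rfl
  | and φ ψ ih1 ih2 =>
    change min (α := Fin 11) (eval (A := TAlg t) v φ) (eval (A := TAlg t) v ψ) = _
    rw [ih1, ih2, evalT]
  | or φ ψ ih1 ih2 =>
    change max (α := Fin 11) (eval (A := TAlg t) v φ) (eval (A := TAlg t) v ψ) = _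
    rw [ih1, ih2, evalT]
  | mul φ ψ ih1 ih2 =>
    change t.mul (eval (A := TAlg t) v φ) (eval (A := TAlg t) v ψ) = _
    rw [ih1, ih2, evalT]
  | imp φ ψ ih1 ih2 =>
    change t.res (eval (A := TAlg t) v φ) (eval (A := TAlg t) v ψ) = _
    rw [ih1, ih2, evalT]
  | e => rfl
  | f => rfl

theorem evalT_congr (t : Tab) {v w : ℕ → Fin 11} (φ : Fml)
    (h : ∀ n ∈ φ.vars, v n = w n) : evalT t v φ = evalT t w φ := by
  have h := eval_congr (A := TAlg t) (v := v) (w := w) φ h
  rwa [eval_eq, eval_eq] at h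

theorem evalT_subst (t : Tab) (v : ℕ → Fin 11) (s : ℕ → Fml) (φ : Fml) :
    evalT t v (φ.subst s) = evalT t (fun n => evalT t v (s n)) φ := by
  have h := eval_subst (A := TAlg t) v s φ
  have h1 : (fun n => eval (A := TAlg t) v (s n)) = fun n => evalT t v (s n) := by
    funext n
    exact eval_eq t v (s n)
  have h2 := (eval_eq t v (φ.subst s)).symm.trans h
  rw [h1] at h2
  exact h2.trans (eval_eq t _ φ)

/-- The consequence relation of a table. -/
def Cons (t : Tab) (Γ : Set Fml) (φ : Fml) : Prop :=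
  ∀ v : ℕ → Fin 11, (∀ γ ∈ Γ, evalT t v γ = 10) → evalT t v φ = 10

theorem compactness (t : Tab) (Pos Neg : Set Fml)
    (h : ∀ F : Finset Fml, ∃ v : ℕ → Fin 11, ∀ φ ∈ F, (φ ∈ Pos → evalT t v φ = 10) ∧
      (φ ∈ Neg → evalT t v φ ≠ 10)) :
    ∃ v : ℕ → Fin 11, (∀ φ ∈ Pos, evalT t v φ = 10) ∧ ∀ φ ∈ Neg, evalT t v φ ≠ 10 := by
  choose V hV using h
  set U : Ultrafilter (Finset Fml) := Ultrafilter.of Filter.atTop with hU
  have hUle : (U : Filter (Finset Fml)) ≤ Filter.atTop := Ultrafilter.of_le _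
  have h1 : ∀ n, ∃ a : Fin 11, ∀ᶠ i in (U : Filter (Finset Fml)), V i n = a := by
    intro n
    by_contra hc
    push Not at hc
    have h2 : ∀ᶠ i in (U : Filter (Finset Fml)), ∀ a : Fin 11, V i n ≠ a :=
      Filter.eventually_all.2 hc
    obtain ⟨i, hi⟩ := h2.exists
    exact hi _ rfl
  choose v hv using h1
  have h2 : ∀ φ, ∀ᶠ i in (U : Filter (Finset Fml)), evalT t (V i) φ = evalT t v φ := by
    intro φ
    induction φ with
    | var n => exact hv n
    | and φ ψ ih1 ih2 => filter_upwards [ih1, ih2] with i h3 h4; rw [evalT, evalT, h3, h4]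
    | or φ ψ ih1 ih2 => filter_upwards [ih1, ih2] with i h3 h4; rw [evalT, evalT, h3, h4]
    | mul φ ψ ih1 ih2 => filter_upwards [ih1, ih2] with i h3 h4; rw [evalT, evalT, h3, h4]
    | imp φ ψ ih1 ih2 => filter_upwards [ih1, ih2] with i h3 h4; rw [evalT, evalT, h3, h4]
    | e => exact Filter.Eventually.of_forall fun _ => rfl
    | f => exact Filter.Eventually.of_forall fun _ => rfl
  have h3 : ∀ φ : Fml, ∀ᶠ F : Finset Fml in (U : Filter (Finset Fml)), φ ∈ F := by
    intro φ
    have h4 : ∀ᶠ F : Finset Fml in Filter.atTop, φ ∈ F := by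
      filter_upwards [Filter.eventually_ge_atTop {φ}] with F hF
      exact hF (Finset.mem_singleton_self φ)
    exact hUle h4
  refine ⟨v, fun φ hφ => ?_, fun φ hφ => ?_⟩
  · obtain ⟨i, h4, h5⟩ := ((h2 φ).and (h3 φ)).exists
    rw [← h4]
    exact (hV i φ h5).1 hφ
  · obtain ⟨i, h4, h5⟩ := ((h2 φ).and (h3 φ)).exists
    rw [← h4]
    exact (hV i φ h5).2 hφ

/-- Conjunctions of lists. -/
def andL : List Fml → Fml
  | [] => .e
  | φ :: l => .and φ (andL l)

/-- Disjunctions of lists. -/
def orL : List Fml → Fml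
  | [] => .f
  | φ :: l => .or φ (orL l)

/-- `φ³ → ψ` -/
def imp3 (φ ψ : Fml) : Fml := .imp (.mul φ (.mul φ φ)) ψ

theorem min_eq_ten {a b : Fin 11} : min a b = 10 ↔ a = 10 ∧ b = 10 := by
  revert a b
  decide

theorem max_eq_ten {a b : Fin 11} : max a b = 10 ↔ a = 10 ∨ b = 10 := by
  revert a b
  decide

theorem evalT_andL (t : Tab) (v : ℕ → Fin 11) (l : List Fml) :
    evalT t v (andL l) = 10 ↔ ∀ φ ∈ l, evalT t v φ = 10 := by
  induction l with
  | nil => simp [andL, evalT]
  | cons φ l ih => rw [andL, evalT, min_eq_ten, ih]; simp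

theorem evalT_orL (t : Tab) (v : ℕ → Fin 11) (l : List Fml) :
    evalT t v (orL l) = 10 ↔ ∃ φ ∈ l, evalT t v φ = 10 := by
  induction l with
  | nil => simp [orL, evalT]
  | cons φ l ih => rw [orL, evalT, max_eq_ten, ih]; simp

theorem res_eq_ten (t : Tab) {a b : Fin 11} : t.res a b = 10 ↔ a ≤ b := by
  refine ⟨fun h => ?_, res_total t a b⟩
  have h1 := (t.resid a 10 b).2 (by rw [h])
  rwa [t.comm, t.one_mul] at h1

theorem evalT_imp3 (t : Tab) (v : ℕ → Fin 11) (φ ψ : Fml) :
    evalT t v (imp3 φ ψ) = 10 ↔ (evalT t v φ = 10 → evalT t v ψ = 10) := by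
  rw [imp3, evalT, evalT, evalT, res_eq_ten]
  by_cases h : evalT t v φ = 10
  · rw [h, t.one_mul, t.one_mul]
    simp only [forall_const]
    exact ⟨fun h => le_antisymm (Fin.le_last _) h, fun h => by rw [h]⟩
  · rw [t.cube _ h]
    simp [h]

theorem eval_andL {A : Type} [MTLAlgebra A] (v : ℕ → A) (l : List Fml) :
    eval v (andL l) = 1 ↔ ∀ φ ∈ l, eval v φ = 1 := by
  induction l with
  | nil => simp [andL, eval]
  | cons φ l ih =>
    rw [andL, eval, FLewAlgebra.one_eq_top, inf_eq_top_iff, ← FLewAlgebra.one_eq_top, ih]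
    simp

theorem vars_andL {C : Set ℕ} {l : List Fml} (h : ∀ φ ∈ l, φ.vars ⊆ C) : (andL l).vars ⊆ C := by
  induction l with
  | nil => simp [andL, Fml.vars]
  | cons φ l ih =>
    rw [andL, Fml.vars]
    exact Set.union_subset (h φ (by simp)) (ih fun ψ hψ => h ψ (by simp [hψ]))

theorem vars_orL {C : Set ℕ} {l : List Fml} (h : ∀ φ ∈ l, φ.vars ⊆ C) : (orL l).vars ⊆ C := by
  induction l with
  | nil => simp [orL, Fml.vars]
  | cons φ l ih =>
    rw [orL, Fml.vars]
    exact Set.union_subset (h φ (by simp)) (ih fun ψ hψ => h ψ (by simp [hψ]))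

theorem vars_imp3 {C : Set ℕ} {φ ψ : Fml} (h1 : φ.vars ⊆ C) (h2 : ψ.vars ⊆ C) :
    (imp3 φ ψ).vars ⊆ C :=
  Set.union_subset (Set.union_subset h1 (Set.union_subset h1 h1)) h2

/-- The consequence relation of a table is an axiomatic extension of MTL. -/
theorem cons_ext (t : Tab) : MTLExtension (Cons t) := by
  classical
  refine ⟨{α | ∀ v : ℕ → Fin 11, evalT t v α = 10}, fun α hα s v => ?_, fun Γ φ => ⟨?_, ?_⟩⟩
  · rw [evalT_subst]
    exact hα _
  · intro h A _ v hv
    have h1 : ∃ F : Finset Fml, ∀ v : ℕ → Fin 11,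
        (∀ ψ ∈ F, ψ ∈ Γ → evalT t v ψ = 10) → evalT t v φ = 10 := by
      by_contra hc
      push Not at hc
      obtain ⟨v, hM1, hM2⟩ := compactness t Γ {φ} (by
        intro F
        obtain ⟨v, hM1, hM2⟩ := hc F
        refine ⟨v, fun ψ hψ => ⟨hM1 ψ hψ, fun h3 => ?_⟩⟩
        rw [Set.mem_singleton_iff.1 h3]
        exact hM2)
      exact hM2 φ rfl (h v hM1)
    obtain ⟨F, hF⟩ := h1
    have h2 : imp3 (andL (F.filter (· ∈ Γ)).toList) φ ∈
        {α | ∀ v : ℕ → Fin 11, evalT t v α = 10} := by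
      intro v
      rw [evalT_imp3, evalT_andL]
      intro h3
      refine hF v fun ψ hψ hψ' => h3 ψ ?_
      rw [Finset.mem_toList, Finset.mem_filter]
      exact ⟨hψ, hψ'⟩
    have h3 := hv _ (Or.inr h2)
    have h4 : eval v (andL (F.filter (· ∈ Γ)).toList) = 1 := by
      rw [eval_andL]
      intro ψ hψ
      rw [Finset.mem_toList, Finset.mem_filter] at hψ
      exact hv ψ (Or.inl hψ.2)
    rw [imp3, eval, eval, eval, h4, mul_one, mul_one] at h3
    have h5 : (1 : A) ≤ FLewAlgebra.res 1 (eval v φ) := by rw [h3]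
    rw [← FLewAlgebra.mul_le_iff, mul_one] at h5
    refine le_antisymm ?_ h5
    rw [FLewAlgebra.one_eq_top]
    exact le_top
  · intro h v hM
    have := h (TAlg t) inferInstance v (by
      intro γ hγ
      rw [eval_eq]
      rcases hγ with hγ | hγ
      · exact hM γ hγ
      · exact hγ v)
    rw [eval_eq] at this
    exact this

/-- If the elements are separated by formulas in one variable, then the DIP holds. -/
theorem cons_dip (t : Tab) (sep : ∀ a a' : Fin 11, a ≠ a' →
      ∃ δ : Fml, ¬ (evalT t (fun _ => a) δ = 10 ↔ evalT t (fun _ => a') δ = 10)) :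
    DIP (Cons t) := by
  classical
  intro Γ φ hΓφ
  refine ⟨{δ | δ.vars ⊆ varsOf Γ ∩ φ.vars ∧ Cons t Γ δ}, ?_, fun δ hδ => hδ.2, ?_⟩
  · rintro n ⟨δ, hδ, hn⟩
    exact hδ.1 hn
  · intro w hN
    obtain ⟨v, hM1, hM2⟩ := compactness t
      (Γ ∪ {δ | δ.vars ⊆ varsOf Γ ∩ φ.vars ∧ evalT t w δ = 10})
      {δ | δ.vars ⊆ varsOf Γ ∩ φ.vars ∧ evalT t w δ ≠ 10} (by
        intro F
        by_contra hF
        push Not at hF
        set θ := andL (F.filter fun δ => δ.vars ⊆ varsOf Γ ∩ φ.vars ∧
          evalT t w δ = 10).toList with hθ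
        set η := orL (F.filter fun δ => δ.vars ⊆ varsOf Γ ∩ φ.vars ∧
          evalT t w δ ≠ 10).toList with hη
        have h1 : Cons t Γ (imp3 θ η) := by
          intro v hM
          rw [evalT_imp3, hθ, hη, evalT_andL, evalT_orL]
          intro h2
          obtain ⟨ψ, hψ, h3⟩ := hF v
          by_cases h4 : ψ ∈ {δ | δ.vars ⊆ varsOf Γ ∩ φ.vars ∧ evalT t w δ ≠ 10} ∧
              evalT t v ψ = 10
          · refine ⟨ψ, ?_, h4.2⟩
            rw [Finset.mem_toList, Finset.mem_filter]
            exact ⟨hψ, h4.1⟩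
          · exfalso
            have h5 : ψ ∈ Γ ∪ {δ | δ.vars ⊆ varsOf Γ ∩ φ.vars ∧ evalT t w δ = 10} →
                evalT t v ψ = 10 := by
              rintro (h5 | h5)
              · exact hM ψ h5
              · refine h2 ψ ?_
                rw [Finset.mem_toList, Finset.mem_filter]
                exact ⟨hψ, h5⟩
            obtain ⟨h6, h7⟩ := h3 h5
            exact h4 ⟨h6, h7⟩
        have h2 : evalT t w (imp3 θ η) = 10 := by
          refine hN _ ⟨vars_imp3 (vars_andL ?_) (vars_orL ?_), h1⟩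
          · intro δ hδ
            rw [Finset.mem_toList, Finset.mem_filter] at hδ
            exact hδ.2.1
          · intro δ hδ
            rw [Finset.mem_toList, Finset.mem_filter] at hδ
            exact hδ.2.1
        rw [evalT_imp3, hθ, hη, evalT_andL, evalT_orL] at h2
        obtain ⟨ψ, h3, h4⟩ := h2 (by
          intro ψ hψ
          rw [Finset.mem_toList, Finset.mem_filter] at hψ
          exact hψ.2.2)
        rw [Finset.mem_toList, Finset.mem_filter] at h3
        exact h3.2.2 h4)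
    have key : ∀ n ∈ varsOf Γ ∩ φ.vars, v n = w n := by
      intro n hn
      by_contra hne
      obtain ⟨δ, hδ⟩ := sep _ _ hne
      have h1 : ∀ u : ℕ → Fin 11, evalT t u (δ.subst fun _ => .var n) =
          evalT t (fun _ => u n) δ := fun u => evalT_subst t u _ δ
      have h2 : (δ.subst fun _ => Fml.var n).vars ⊆ varsOf Γ ∩ φ.vars := by
        have : ∀ δ : Fml, (δ.subst fun _ => Fml.var n).vars ⊆ {n} := by
          intro δ
          induction δ with
          | var m => exact subset_rfl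
          | and φ ψ ih1 ih2 => exact Set.union_subset ih1 ih2
          | or φ ψ ih1 ih2 => exact Set.union_subset ih1 ih2
          | mul φ ψ ih1 ih2 => exact Set.union_subset ih1 ih2
          | imp φ ψ ih1 ih2 => exact Set.union_subset ih1 ih2
          | e => exact Set.empty_subset _
          | f => exact Set.empty_subset _
        exact (this δ).trans (Set.singleton_subset_iff.2 hn)
      rw [← h1, ← h1] at hδ
      apply hδ
      constructor
      · intro h3
        by_contra h4
        exact hM2 _ ⟨h2, h4⟩ h3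
      · intro h3
        exact hM1 _ (Or.inr ⟨h2, h3⟩)
    have h5 := hΓφ (fun n => if n ∈ varsOf Γ then v n else w n) (by
      intro γ hγ
      rw [evalT_congr t (w := v) γ fun n hn => if_pos ⟨γ, hγ, hn⟩]
      exact hM1 γ (Or.inl hγ))
    rwa [evalT_congr t (w := w) φ (fun n hn => by
      by_cases hC : n ∈ varsOf Γ
      · simp only [hC, if_true]
        exact key n ⟨hC, hn⟩
      · simp only [hC, if_false])] at h5

end Pool.Agent.Q217.MTL
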